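import Pool.Agent.Lib.CT70.C

set_option autoImplicit false

namespace Pool.Agent.Results.MP_a7588a_co.TwoDeepPoints

open Pool.Agent.CT Pool.Agent.CT70

/-- Compatible triangulations exist when each of the two sets has at most two points below its
second convex layer (interior points lying in the convex hull of the other interior points). -/
theorem result :
  ∀ S₁ S₂ : Finset (ℝ × ℝ),
    3 ≤ S₁.card → S₁.card = S₂.card →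
    (∀ a ∈ S₁, ∀ b ∈ S₁, ∀ c ∈ S₁, a ≠ b → a ≠ c → b ≠ c →
        ¬ Collinear ℝ ({a, b, c} : Set (ℝ × ℝ))) →
    (∀ a ∈ S₂, ∀ b ∈ S₂, ∀ c ∈ S₂, a ≠ b → a ≠ c → b ≠ c →
        ¬ Collinear ℝ ({a, b, c} : Set (ℝ × ℝ))) →
    {p | p ∈ (S₁ : Set (ℝ × ℝ)) ∧ p ∉ convexHull ℝ ((S₁ : Set (ℝ × ℝ)) \ {p})}.ncard =
      {p | p ∈ (S₂ : Set (ℝ × ℝ)) ∧ p ∉ convexHull ℝ ((S₂ : Set (ℝ × ℝ)) \ {p})}.ncard →
    {p | p ∈ {q | q ∈ (S₁ : Set (ℝ × ℝ)) ∧ q ∈ convexHull ℝ ((S₁ : Set (ℝ × ℝ)) \ {q})} ∧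
      p ∈ convexHull ℝ
        ({q | q ∈ (S₁ : Set (ℝ × ℝ)) ∧ q ∈ convexHull ℝ ((S₁ : Set (ℝ × ℝ)) \ {q})} \
          {p})}.ncard ≤ 2 →
    {p | p ∈ {q | q ∈ (S₂ : Set (ℝ × ℝ)) ∧ q ∈ convexHull ℝ ((S₂ : Set (ℝ × ℝ)) \ {q})} ∧
      p ∈ convexHull ℝ
        ({q | q ∈ (S₂ : Set (ℝ × ℝ)) ∧ q ∈ convexHull ℝ ((S₂ : Set (ℝ × ℝ)) \ {q})} \
          {p})}.ncard ≤ 2 →
    ∃ T₁ T₂ : Finset (Finset (ℝ × ℝ)),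
      (∀ t ∈ T₁, t ⊆ S₁ ∧ t.card = 3 ∧
          ∀ p ∈ S₁, p ∈ convexHull ℝ (t : Set (ℝ × ℝ)) → p ∈ t) ∧
      (∀ t ∈ T₁, ∀ t' ∈ T₁, t ≠ t' →
          interior (convexHull ℝ (t : Set (ℝ × ℝ))) ∩
            interior (convexHull ℝ (t' : Set (ℝ × ℝ))) = ∅) ∧
      (⋃ t ∈ T₁, convexHull ℝ (t : Set (ℝ × ℝ))) = convexHull ℝ (S₁ : Set (ℝ × ℝ)) ∧
      (∀ t ∈ T₂, t ⊆ S₂ ∧ t.card = 3 ∧
          ∀ p ∈ S₂, p ∈ convexHull ℝ (t : Set (ℝ × ℝ)) → p ∈ t) ∧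
      (∀ t ∈ T₂, ∀ t' ∈ T₂, t ≠ t' →
          interior (convexHull ℝ (t : Set (ℝ × ℝ))) ∩
            interior (convexHull ℝ (t' : Set (ℝ × ℝ))) = ∅) ∧
      (⋃ t ∈ T₂, convexHull ℝ (t : Set (ℝ × ℝ))) = convexHull ℝ (S₂ : Set (ℝ × ℝ)) ∧
      ∃ φ : ℝ × ℝ → ℝ × ℝ, Set.BijOn φ (S₁ : Set (ℝ × ℝ)) (S₂ : Set (ℝ × ℝ)) ∧
        ∀ t : Finset (ℝ × ℝ), t ⊆ S₁ → (t ∈ T₁ ↔ t.image φ ∈ T₂) := by
  intro S₁ S₂ h3 hc c1 c2 hh d1 d2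
  have g1 := gp_ok S₁ c1
  have g2 := gp_ok S₂ c2
  rw [hv_set g1 (by omega), hv_set g2 (by omega)] at hh
  have sub : ∀ S : Finset Pt, inner S ⊆ S := fun S x hx => (mem_inner.mp hx).1
  rw [inner_set g1 (by omega)] at d1
  rw [inner_set g2 (by omega)] at d2
  obtain ⟨T₁, T₂, a1, a2, a3, b1, b2, b3, φ, bij, h⟩ :=
    final_of S₁ S₂ h3 hc g1 g2 hh fun hi K VP VQ hne s1 s2 f1 f2 =>
      tt3 _ _ K VP VQ hne hi (g1.mono (sub _)) (g2.mono (sub _))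
        (inner_two (g1.mono (sub _)) d1) (inner_two (g2.mono (sub _)) d2) s1 s2 f1 f2
  refine ⟨T₁, T₂, a1, a2, a3, b1, b2, b3, φ, bij, fun t ht => (h t ht).trans ?_⟩
  exact iff_of_eq (congrArg (· ∈ T₂) (Finset.ext fun x => by simp only [Finset.mem_image]))

end Pool.Agent.Results.MP_a7588a_co.TwoDeepPoints
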