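import Pool.Agent.Lib.MP_a7588a_co.Final

set_option autoImplicit false

namespace Pool.Agent.Results.MP_a7588a_co.TwoLayers

open Pool.Agent.CT

/-- Compatible triangulations exist when the interior points of one of the two sets are in convex
position (the other set is arbitrary). -/
theorem result :
  ∀ S₁ S₂ : Finset (ℝ × ℝ),
    3 ≤ S₁.card → S₁.card = S₂.card →
    (∀ a ∈ S₁, ∀ b ∈ S₁, ∀ c ∈ S₁, a ≠ b → a ≠ c → b ≠ c →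
        ¬ Collinear ℝ ({a, b, c} : Set (ℝ × ℝ))) →
    (∀ a ∈ S₂, ∀ b ∈ S₂, ∀ c ∈ S₂, a ≠ b → a ≠ c → b ≠ c →
        ¬ Collinear ℝ ({a, b, c} : Set (ℝ × ℝ))) →
    {p | p ∈ (S₁ : Set (ℝ × ℝ)) ∧ p ∉ convexHull ℝ ((S₁ : Set (ℝ × ℝ)) \ {p})}.ncard =
      {p | p ∈ (S₂ : Set (ℝ × ℝ)) ∧ p ∉ convexHull ℝ ((S₂ : Set (ℝ × ℝ)) \ {p})}.ncard →
    (∀ p ∈ S₁, p ∈ convexHull ℝ ((S₁ : Set (ℝ × ℝ)) \ {p}) →
      p ∉ convexHull ℝ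
        ({q | q ∈ (S₁ : Set (ℝ × ℝ)) ∧ q ∈ convexHull ℝ ((S₁ : Set (ℝ × ℝ)) \ {q})} \ {p})) →
    ∃ T₁ T₂ : Finset (Finset (ℝ × ℝ)),
      (∀ t ∈ T₁, t ⊆ S₁ ∧ t.card = 3 ∧
          ∀ p ∈ S₁, p ∈ convexHull ℝ (t : Set (ℝ × ℝ)) → p ∈ t) ∧
      (∀ t ∈ T₁, ∀ t' ∈ T₁, t ≠ t' →
          interior (convexHull ℝ (t : Set (ℝ × ℝ))) ∩
            interior (convexHull ℝ (t' : Set (ℝ × ℝ))) = ∅) ∧
      (⋃ t ∈ T₁, convexHull ℝ (t : Set (ℝ × ℝ))) = convexHull ℝ (S₁ : Set (ℝ × ℝ)) ∧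
      (∀ t ∈ T₂, t ⊆ S₂ ∧ t.card = 3 ∧
          ∀ p ∈ S₂, p ∈ convexHull ℝ (t : Set (ℝ × ℝ)) → p ∈ t) ∧
      (∀ t ∈ T₂, ∀ t' ∈ T₂, t ≠ t' →
          interior (convexHull ℝ (t : Set (ℝ × ℝ))) ∩
            interior (convexHull ℝ (t' : Set (ℝ × ℝ))) = ∅) ∧
      (⋃ t ∈ T₂, convexHull ℝ (t : Set (ℝ × ℝ))) = convexHull ℝ (S₂ : Set (ℝ × ℝ)) ∧
      ∃ φ : ℝ × ℝ → ℝ × ℝ, Set.BijOn φ (S₁ : Set (ℝ × ℝ)) (S₂ : Set (ℝ × ℝ)) ∧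
        ∀ t : Finset (ℝ × ℝ), t ⊆ S₁ → (t ∈ T₁ ↔ t.image φ ∈ T₂) := by
  intro S₁ S₂ h3 hc c1 c2 hh hcp
  have g1 := gp_ok S₁ c1
  have g2 := gp_ok S₂ c2
  rw [hv_set g1 (by omega), hv_set g2 (by omega)] at hh
  have sub : ∀ S : Finset Pt, inner S ⊆ S := fun S x hx => (mem_inner.mp hx).1
  have e : {q | q ∈ (S₁ : Set (ℝ × ℝ)) ∧ q ∈ convexHull ℝ ((S₁ : Set (ℝ × ℝ)) \ {q})} =
      (inner S₁ : Set Pt) := by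
    ext q
    simp only [Set.mem_ofPred_eq, Finset.mem_coe, mem_inner]
    refine and_congr_right fun hq => ?_
    rw [← bridge_ok S₁ g1 (by omega) q hq, not_not]
  have cp : CP (inner S₁) := by
    intro a ha h2
    refine (bridge_ok _ (g1.mono (sub _)) h2 a ha).mp ?_
    rw [← e]
    have : a ∈ (inner S₁ : Set Pt) := ha
    rw [← e] at this
    exact hcp a this.1 this.2
  have := final_of S₁ S₂ h3 hc g1 g2 hh fun hi K VP VQ hne s1 s2 f1 f2 =>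
    tt2 _ _ K VP VQ hne hi (g1.mono (sub _)) (g2.mono (sub _)) cp s1 s2 f1 f2
  convert this

end Pool.Agent.Results.MP_a7588a_co.TwoLayers
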